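import Pool.Agent.TH499.TF.LemB2
import Mathlib.Combinatorics.SimpleGraph.Acyclic

set_option autoImplicit false
set_option linter.unusedSectionVars false

/-! # Tree decompositions (following the files of helper497) -/

namespace Pool.Agent.TH499.TF

open Finset

variable {V E : Type} [Fintype V] [DecidableEq V] [Fintype E] [DecidableEq E]

/-- a rooted tree decomposition of the edges that are not loops -/
structure TD (src dst : E → V) (w : ℕ) (N : Finset ℕ) (par : ℕ → ℕ) (B : ℕ → Finset V) :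
    Prop where
  root : 0 ∈ N
  up : ∀ i ∈ N, i ≠ 0 → par i ∈ N ∧ par i < i
  edge : ∀ e, src e ≠ dst e → ∃ i ∈ N, src e ∈ B i ∧ dst e ∈ B i
  conn : ∀ i ∈ N, ∀ j ∈ N, ∀ v, j < i → v ∈ B i → v ∈ B j → v ∈ B (par i)
  card : ∀ i ∈ N, (B i).card ≤ w

/-- a bag contained in its parent is removed -/
theorem TD.minimal {src dst : E → V} {w : ℕ} {B : ℕ → Finset V} (m : ℕ) :
    ∀ (N : Finset ℕ) (par : ℕ → ℕ), N.card = m → TD src dst w N par B →
    ∃ (N' : Finset ℕ) (par' : ℕ → ℕ), TD src dst w N' par' B ∧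
      ∀ i ∈ N', i ≠ 0 → ¬ B i ⊆ B (par' i) := by
  classical
  induction m using Nat.strong_induction_on with
  | _ m ih =>
    intro N par hm hD
    by_cases h : ∀ i ∈ N, i ≠ 0 → ¬ B i ⊆ B (par i)
    · exact ⟨N, par, hD, h⟩
    · push Not at h
      obtain ⟨a, ha, ha0, hs⟩ := h
      obtain ⟨hpa, hpa2⟩ := hD.up a ha ha0
      refine ih (N.erase a).card (by rw [← hm]; exact card_erase_lt_of_mem ha) (N.erase a)
        (fun i => if par i = a then par a else par i) rfl ⟨?_, ?_, ?_, ?_, ?_⟩
      · exact mem_erase.mpr ⟨Ne.symm ha0, hD.root⟩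
      · intro i hi hi0
        rw [mem_erase] at hi
        obtain ⟨h1, h2⟩ := hD.up i hi.2 hi0
        change (if par i = a then par a else par i) ∈ N.erase a ∧
          (if par i = a then par a else par i) < i
        by_cases h3 : par i = a
        · rw [if_pos h3]
          exact ⟨mem_erase.mpr ⟨by omega, hpa⟩, by omega⟩
        · rw [if_neg h3]
          exact ⟨mem_erase.mpr ⟨h3, h1⟩, h2⟩
      · intro e he
        obtain ⟨i, hi, h1, h2⟩ := hD.edge e he
        by_cases hia : i = a
        · subst hia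
          exact ⟨par i, mem_erase.mpr ⟨by omega, hpa⟩, hs h1, hs h2⟩
        · exact ⟨i, mem_erase.mpr ⟨hia, hi⟩, h1, h2⟩
      · intro i hi j hj v hji h1 h2
        rw [mem_erase] at hi hj
        have h4 := hD.conn i hi.2 j hj.2 v hji h1 h2
        change v ∈ B (if par i = a then par a else par i)
        by_cases h3 : par i = a
        · rw [if_pos h3]
          rw [h3] at h4
          exact hs h4
        · rw [if_neg h3]; exact h4
      · intro i hi
        exact hD.card i (mem_of_mem_erase hi)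

/-- a rooted tree decomposition with bags of at most `w` vertices: the nodes are `0, ..., n - 1`,
the parent of `i > 0` is `par i < i` -/
def HasTD (w : ℕ) (src dst : E → V) : Prop :=
  ∃ (n : ℕ) (par : ℕ → ℕ) (B : ℕ → Finset V), (∀ i, 0 < i → i < n → par i < i) ∧
    (∀ e, ∃ i, i < n ∧ src e ∈ B i ∧ dst e ∈ B i) ∧
    (∀ i j v, j < i → i < n → v ∈ B i → v ∈ B j → v ∈ B (par i)) ∧
    ∀ i, i < n → (B i).card ≤ w

theorem HasTD.loop {w : ℕ} (src dst : E → V) (D : Finset E) (h : HasTD w src dst) :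
    HasTD w src (lp src dst D) := by
  obtain ⟨n, par, B, h0, h1, h2, h4⟩ := h
  refine ⟨n, par, B, h0, fun e => ?_, h2, h4⟩
  obtain ⟨i, hin, hi1, hi2⟩ := h1 e
  refine ⟨i, hin, hi1, ?_⟩
  unfold lp
  split_ifs
  · exact hi1
  · exact hi2

theorem two_conn {n : ℕ} {par : ℕ → ℕ} {B : ℕ → Finset V}
    (h0 : ∀ i, 0 < i → i < n → par i < i)
    (h2 : ∀ i j v, j < i → i < n → v ∈ B i → v ∈ B j → v ∈ B (par i)) {a a' : V}
    (hb : ∃ b, b < n ∧ a ∈ B b ∧ a' ∈ B b) {i j : ℕ} (hji : j < i) (hi : i < n)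
    (ha : a ∈ B i) (ha' : a' ∈ B j) : a ∈ B (par i) ∨ a' ∈ B (par i) := by
  classical
  obtain ⟨hb1, hb2, hb3⟩ := Nat.find_spec hb
  have hmin := fun m => @Nat.find_min' _ _ hb m
  generalize Nat.find hb = b at hb1 hb2 hb3 hmin
  rcases Nat.lt_trichotomy b i with h | h | h
  · exact Or.inl (h2 i b a h hi ha hb2)
  · subst h
    exact Or.inr (h2 b j a' hji hi hb3 ha')
  · have h5 := h2 b i a h hb1 hb2 ha
    have h6 := h2 b j a' (by omega) hb1 hb3 ha'
    have h7 := h0 b (by omega) hb1
    have := hmin (par b) ⟨by omega, h5, h6⟩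
    omega

theorem HasTD.contract {w : ℕ} (src dst : E → V) (e : E) (h : HasTD w src dst)
    (hne : src e ≠ dst e) :
    HasTD w (phi (src e) (dst e) ∘ src) (phi (src e) (dst e) ∘ dst) := by
  obtain ⟨n, par, B, h0, h1, h2, h4⟩ := h
  refine ⟨n, par, fun i => (B i).image (phi (src e) (dst e)), h0, ?_, ?_,
    fun i hi => card_image_le.trans (h4 i hi)⟩
  · intro d
    obtain ⟨i, hin, hi1, hi2⟩ := h1 d
    exact ⟨i, hin, mem_image_of_mem _ hi1, mem_image_of_mem _ hi2⟩
  · have hm : ∀ i v, v ∈ (B i).image (phi (src e) (dst e)) ↔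
        (v ∈ B i ∧ v ≠ dst e) ∨ (v = src e ∧ dst e ∈ B i) := by
      intro i v
      rw [mem_image]
      unfold phi
      constructor
      · rintro ⟨y, hy, hyv⟩
        by_cases h : y = dst e
        · rw [if_pos h] at hyv
          exact Or.inr ⟨hyv.symm, h ▸ hy⟩
        · rw [if_neg h] at hyv
          exact Or.inl ⟨hyv ▸ hy, hyv ▸ h⟩
      · rintro (⟨h5, h6⟩ | ⟨h5, h6⟩)
        · exact ⟨v, h5, if_neg h6⟩
        · exact ⟨dst e, h6, by rw [if_pos rfl, h5]⟩
    intro i j v hji hi hvi hvj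
    change v ∈ (B i).image (phi (src e) (dst e)) at hvi
    change v ∈ (B j).image (phi (src e) (dst e)) at hvj
    change v ∈ (B (par i)).image (phi (src e) (dst e))
    rw [hm] at hvi hvj ⊢
    obtain ⟨b, hbn, hb1, hb2⟩ := h1 e
    rcases hvi with ⟨h5, h6⟩ | ⟨h5, h6⟩ <;> rcases hvj with ⟨h7, h8⟩ | ⟨h7, h8⟩
    · exact Or.inl ⟨h2 i j v hji hi h5 h7, h6⟩
    · rw [h7] at h5
      rcases two_conn h0 h2 ⟨b, hbn, hb1, hb2⟩ hji hi h5 h8 with h | h
      · rw [h7]; exact Or.inl ⟨h, hne⟩
      · exact Or.inr ⟨h7, h⟩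
    · rw [h5] at h7
      rcases two_conn h0 h2 ⟨b, hbn, hb2, hb1⟩ hji hi h6 h7 with h | h
      · exact Or.inr ⟨h5, h⟩
      · rw [h5]; exact Or.inl ⟨h, hne⟩
    · exact Or.inr ⟨h5, h2 i j _ hji hi h6 h8⟩

/-- the bags satisfy the path condition -/
def PathCond {V ι : Type} (T : SimpleGraph ι) (C : ι → Finset V) : Prop :=
  ∀ (i j : ι) (p : T.Walk i j), p.IsPath → ∀ k ∈ p.support, ∀ v, v ∈ C i → v ∈ C j → v ∈ C k

theorem PathCond.induce {V ι : Type} {T : SimpleGraph ι} {C : ι → Finset V}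
    (h : PathCond T C) (s : Set ι) : PathCond (T.induce s) (fun i => C i.1) := by
  intro i j p hp k hk v hi hj
  have h1 := SimpleGraph.Walk.map_isPath_of_injective
    (f := (SimpleGraph.Embedding.induce (G := T) s).toHom)
    (SimpleGraph.Embedding.induce (G := T) s).injective hp
  refine h _ _ _ h1 k.1 ?_ v hi hj
  rw [SimpleGraph.Walk.support_map]
  exact List.mem_map.mpr ⟨k, hk, rfl⟩

/-- numbering of the nodes of a finite tree -/
theorem numbering {V : Type} (m : ℕ) : ∀ (ι : Type) [Fintype ι] (T : SimpleGraph ι)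
    (C : ι → Finset V), T.IsTree → PathCond T C → Fintype.card ι = m + 1 →
    ∃ (num : ι → ℕ) (par : ℕ → ℕ), Function.Injective num ∧ (∀ i, num i < m + 1) ∧
      (∀ a, 0 < a → a < m + 1 → par a < a) ∧
      ∀ i j v, num j < num i → v ∈ C i → v ∈ C j → ∃ k, num k = par (num i) ∧ v ∈ C k := by
  classical
  induction m with
  | zero =>
    intro ι _ T C _ _ hc
    have hs : ∀ i j : ι, i = j := by
      intro i j
      have h1 : Fintype.card ι ≤ 1 := by omega
      exact Fintype.card_le_one_iff.mp h1 i j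
    exact ⟨fun _ => 0, fun _ => 0, fun i j _ => hs i j, fun _ => by norm_num,
      fun a h1 h2 => by omega, fun i j v h => by simp at h⟩
  | succ m ih =>
    intro ι _ T C hT hC hc
    haveI : Nontrivial ι := Fintype.one_lt_card_iff_nontrivial.mp (by omega)
    obtain ⟨l, hl⟩ := hT.exists_vert_degree_one_of_nontrivial
    obtain ⟨u, hlu, hu⟩ := SimpleGraph.degree_eq_one_iff_existsUnique_adj.mp hl
    have hul : u ≠ l := fun h => by
      rw [h] at hlu
      exact T.loopless.irrefl l hlu
    have hT' : (T.induce ({l}ᶜ : Set ι)).IsTree :=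
      ⟨hT.connected.induce_compl_singleton_of_degree_eq_one hl, hT.isAcyclic.induce _⟩
    have hc' : Fintype.card ({l}ᶜ : Set ι) = m + 1 := by
      have h1 := Fintype.card_compl_set ({l} : Set ι)
      rw [Set.card_singleton, hc] at h1
      exact h1
    obtain ⟨num, par, h1, h2, h3, h4⟩ := ih _ (T.induce ({l}ᶜ : Set ι)) _ hT' (hC.induce _) hc'
    have hmem : ∀ i, i ≠ l → i ∈ ({l}ᶜ : Set ι) := fun i hi => by simpa using hi
    set num' : ι → ℕ := fun i => if h : i ∈ ({l}ᶜ : Set ι) then num ⟨i, h⟩ else m + 1 with hn'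
    have hn1 : ∀ i (h : i ∈ ({l}ᶜ : Set ι)), num' i = num ⟨i, h⟩ := fun i h => by
      rw [hn']; exact dif_pos h
    have hn2 : num' l = m + 1 := by
      rw [hn']; exact dif_neg (by simp)
    refine ⟨num', fun a => if a = m + 1 then num ⟨u, hmem u hul⟩ else par a, ?_, ?_, ?_, ?_⟩
    · intro i j hij
      by_cases hi : i = l <;> by_cases hj : j = l
      · rw [hi, hj]
      · rw [hi, hn2, hn1 j (hmem j hj)] at hij
        have := h2 ⟨j, hmem j hj⟩
        omega
      · rw [hj, hn2, hn1 i (hmem i hi)] at hij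
        have := h2 ⟨i, hmem i hi⟩
        omega
      · rw [hn1 i (hmem i hi), hn1 j (hmem j hj)] at hij
        exact congrArg Subtype.val (h1 hij)
    · intro i
      by_cases hi : i = l
      · rw [hi, hn2]; omega
      · rw [hn1 i (hmem i hi)]
        have := h2 ⟨i, hmem i hi⟩
        omega
    · intro a ha ha2
      change (if a = m + 1 then num ⟨u, hmem u hul⟩ else par a) < a
      split_ifs with h
      · rw [h]; exact h2 _
      · exact h3 a ha (by omega)
    · intro i j v hji hvi hvj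
      change ∃ k, num' k = (if num' i = m + 1 then num ⟨u, hmem u hul⟩ else par (num' i)) ∧ v ∈ C k
      by_cases hi : i = l
      · subst hi
        rw [if_pos hn2]
        have hj : j ≠ i := fun h => by rw [h] at hji; omega
        refine ⟨u, hn1 u (hmem u hul), ?_⟩
        obtain ⟨p, hp⟩ := hT.connected.exists_isPath i j
        refine hC i j p hp u ?_ v hvi hvj
        have hnil : ¬ p.Nil := SimpleGraph.Walk.not_nil_of_ne (Ne.symm hj)
        have h5 := p.adj_snd hnil
        rw [← hu _ h5]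
        exact p.getVert_mem_support 1
      · have hi' := h2 ⟨i, hmem i hi⟩
        have hj : j ≠ l := by
          intro h
          rw [h, hn2, hn1 i (hmem i hi)] at hji
          omega
        rw [hn1 i (hmem i hi), hn1 j (hmem j hj)] at hji
        obtain ⟨k, hk, hk2⟩ := h4 ⟨i, hmem i hi⟩ ⟨j, hmem j hj⟩ v hji hvi hvj
        refine ⟨k.1, ?_, hk2⟩
        rw [hn1 i (hmem i hi), if_neg (by omega), hn1 k.1 k.2]
        exact hk


/-- from the usual definition -/
theorem HasTD.of_tree {ι : Type} [Fintype ι] {T : SimpleGraph ι} {C : ι → Finset V}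
    {src dst : E → V} {w : ℕ} (hT : T.IsTree) (hC : PathCond T C)
    (he : ∀ e, ∃ i, src e ∈ C i ∧ dst e ∈ C i) (hw : ∀ i, (C i).card ≤ w) :
    HasTD w src dst := by
  classical
  obtain ⟨m, hm⟩ : ∃ m, Fintype.card ι = m + 1 := by
    haveI := hT.connected.nonempty
    exact ⟨Fintype.card ι - 1, by have := Fintype.card_pos (α := ι); omega⟩
  obtain ⟨num, par, h1, h2, h3, h4⟩ := numbering m ι T C hT hC hm
  have hsurj : ∀ a, a < m + 1 → ∃ i, num i = a := by
    intro a ha
    have hb : Function.Bijective (fun i => (⟨num i, h2 i⟩ : Fin (m + 1))) := by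
      rw [Fintype.bijective_iff_injective_and_card]
      refine ⟨fun i j hij => h1 (by simpa using hij), by rw [hm, Fintype.card_fin]⟩
    obtain ⟨i, hi⟩ := hb.2 ⟨a, ha⟩
    exact ⟨i, by simpa using congrArg Fin.val hi⟩
  haveI := hT.connected.nonempty
  have hinv : ∀ i, Function.invFun num (num i) = i := Function.leftInverse_invFun h1
  refine ⟨m + 1, par, fun a => C (Function.invFun num a), h3, ?_, ?_, fun a _ => hw _⟩
  · intro e
    obtain ⟨i, hi1, hi2⟩ := he e
    refine ⟨num i, h2 i, ?_⟩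
    change src e ∈ C (Function.invFun num (num i)) ∧ dst e ∈ C (Function.invFun num (num i))
    rw [hinv i]
    exact ⟨hi1, hi2⟩
  · intro a b v hba ha hva hvb
    obtain ⟨i, rfl⟩ := hsurj a ha
    obtain ⟨j, rfl⟩ := hsurj b (by omega)
    change v ∈ C (Function.invFun num (num i)) at hva
    change v ∈ C (Function.invFun num (num j)) at hvb
    change v ∈ C (Function.invFun num (par (num i)))
    rw [hinv] at hva hvb
    obtain ⟨k, hk, hk2⟩ := h4 i j v hba hva hvb
    rw [← hk, hinv]
    exact hk2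

end Pool.Agent.TH499.TF
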