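import Mathlib

set_option autoImplicit false

/-! # Flows with values in `Z_2 x Z_2`: contraction, small cuts -/

namespace Pool.Agent.TH499.TF

open Finset

abbrev K := ZMod 2 × ZMod 2

theorem K_add_self (a : K) : a + a = 0 := by revert a; decide

theorem K_eq_of_add {a b : K} (h : a + b = 0) : a = b := by
  revert a b; decide

variable {V E : Type} [Fintype V] [DecidableEq V] [Fintype E] [DecidableEq E]

/-- contribution at `x` of the value `t` on an edge with ends `a`, `b` -/
def jn (a b : V) (t : K) (x : V) : K := (if a = x then t else 0) + (if b = x then t else 0)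

omit [Fintype V] in
theorem jn_loop (a : V) (t : K) (x : V) : jn a a t x = 0 := by
  unfold jn; exact K_add_self _

omit [Fintype V] in
theorem jn_comm (a b : V) (t : K) (x : V) : jn a b t x = jn b a t x := by
  unfold jn; exact add_comm _ _

omit [Fintype V] in
theorem jn_add (a b : V) (s t : K) (x : V) : jn a b (s + t) x = jn a b s x + jn a b t x := by
  unfold jn; split_ifs <;> abel

omit [Fintype V] in
theorem jn_zero (a b : V) (x : V) : jn a b 0 x = 0 := by
  unfold jn; simp

/-- the sum of the values around `x` -/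
def dv (src dst : E → V) (f : E → K) (x : V) : K := ∑ e, jn (src e) (dst e) (f e) x

/-- a nowhere-zero flow with values in `Z_2 x Z_2` -/
def NZ (src dst : E → V) : Prop := ∃ f : E → K, (∀ e, f e ≠ 0) ∧ ∀ x, dv src dst f x = 0

/-- the edges with exactly one end in `Y` -/
def dlt (src dst : E → V) (Y : Finset V) : Finset E :=
  univ.filter (fun e => ¬ (src e ∈ Y ↔ dst e ∈ Y))

omit [Fintype V] [DecidableEq E] in
theorem mem_dlt {src dst : E → V} {Y : Finset V} {e : E} :
    e ∈ dlt src dst Y ↔ ¬ (src e ∈ Y ↔ dst e ∈ Y) := by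
  simp [dlt]

omit [Fintype V] in
theorem sum_jn (a b : V) (t : K) (Y : Finset V) :
    ∑ x ∈ Y, jn a b t x = if (a ∈ Y ↔ b ∈ Y) then 0 else t := by
  unfold jn
  rw [sum_add_distrib, sum_ite_eq, sum_ite_eq]
  by_cases h1 : a ∈ Y <;> by_cases h2 : b ∈ Y <;> simp [h1, h2, K_add_self]

omit [Fintype V] [DecidableEq E] in
theorem sum_dv (src dst : E → V) (f : E → K) (Y : Finset V) :
    ∑ x ∈ Y, dv src dst f x = ∑ e ∈ dlt src dst Y, f e := by
  unfold dv
  rw [sum_comm]
  unfold dlt
  rw [sum_filter]
  refine sum_congr rfl fun e _ => ?_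
  rw [sum_jn]
  by_cases h : (src e ∈ Y ↔ dst e ∈ Y) <;> simp [h]

omit [DecidableEq E] in
theorem sum_dv_univ (src dst : E → V) (f : E → K) : ∑ x, dv src dst f x = 0 := by
  rw [sum_dv]
  have : dlt src dst (univ : Finset V) = ∅ := by
    ext e; simp [mem_dlt]
  rw [this, sum_empty]

omit [Fintype V] [DecidableEq E] in
theorem dv_add (src dst : E → V) (f g : E → K) (x : V) :
    dv src dst (fun e => f e + g e) x = dv src dst f x + dv src dst g x := by
  unfold dv
  rw [← sum_add_distrib]
  exact sum_congr rfl fun e _ => jn_add _ _ _ _ _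

omit [DecidableEq E] in
theorem dv_comp (src dst : E → V) (π : V → V) (f : E → K) (y : V) :
    dv (π ∘ src) (π ∘ dst) f y = ∑ x ∈ univ.filter (fun x => π x = y), dv src dst f x := by
  rw [sum_dv]
  unfold dv dlt
  rw [sum_filter]
  refine sum_congr rfl fun e _ => ?_
  unfold jn
  simp only [Function.comp, mem_filter, mem_univ, true_and]
  by_cases h1 : π (src e) = y <;> by_cases h2 : π (dst e) = y <;> simp [h1, h2, K_add_self]

omit [Fintype V] [DecidableEq E] in
theorem dlt_comp (src dst : E → V) (π : V → V) (Y : Finset V) [Fintype V] :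
    dlt (π ∘ src) (π ∘ dst) Y = dlt src dst (univ.filter (fun x => π x ∈ Y)) := by
  ext e
  rw [mem_dlt, mem_dlt]
  simp

/-- identify all vertices of `W` with `w` -/
def pw (W : Finset V) (w : V) (x : V) : V := if x ∈ W then w else x

/-- the vertex `v` is renamed `u` -/
def phi (u v : V) (x : V) : V := if x = v then u else x

/-- the edges in `D` become loops -/
def lp (src dst : E → V) (D : Finset E) (e : E) : V := if e ∈ D then src e else dst e

/-- number of edges that are not loops -/
def nl (src dst : E → V) : ℕ := (univ.filter (fun e => src e ≠ dst e)).card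

/-- `e` joins `x` and `y` -/
def Joins (src dst : E → V) (e : E) (x y : V) : Prop :=
  (src e = x ∧ dst e = y) ∨ (src e = y ∧ dst e = x)

omit [Fintype V] [Fintype E] [DecidableEq V] [DecidableEq E] in
theorem Joins.symm {src dst : E → V} {e : E} {x y : V} (h : Joins src dst e x y) :
    Joins src dst e y x := h.elim (fun h => Or.inr h) (fun h => Or.inl h)

omit [Fintype V] [Fintype E] [DecidableEq E] in
theorem Joins.jn {src dst : E → V} {e : E} {x y : V} (h : Joins src dst e x y) (t : K) (z : V) :
    TF.jn (src e) (dst e) t z = TF.jn x y t z := by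
  rcases h with ⟨h1, h2⟩ | ⟨h1, h2⟩
  · rw [h1, h2]
  · rw [h1, h2, jn_comm]

/-- sets that are obtained by adding vertices joined to earlier ones -/
inductive Grow (src dst : E → V) : Finset V → Prop
  | one (v : V) : Grow src dst {v}
  | add (W : Finset V) (v w : V) (e : E) : Grow src dst W → v ∉ W → w ∈ W →
      Joins src dst e v w → Grow src dst (insert v W)

/-- closure properties of the classes of graphs -/
structure Closed (C : (E → V) → (E → V) → Prop) : Prop where
  con : ∀ src dst (u v : V) (e : E), C src dst → u ≠ v → Joins src dst e u v →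
    C (phi u v ∘ src) (phi u v ∘ dst)
  del : ∀ src dst D, C src dst → C src (lp src dst D)

omit [Fintype V] [Fintype E] in
theorem Closed.grow {C : (E → V) → (E → V) → Prop} (hC : Closed C) {src dst : E → V}
    {W : Finset V} (hW : Grow src dst W) (h : C src dst) :
    ∃ w ∈ W, C (pw W w ∘ src) (pw W w ∘ dst) := by
  induction hW with
  | one v =>
    refine ⟨v, mem_singleton_self v, ?_⟩
    have : (pw {v} v : V → V) = id := by
      funext x
      unfold pw
      by_cases hx : x = v <;> simp [hx]
    rw [this]; exact h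
  | add W v w e hW hv hw he ih =>
    obtain ⟨w0, hw0, h0⟩ := ih
    refine ⟨w0, mem_insert_of_mem hw0, ?_⟩
    have hne : w0 ≠ v := fun h => hv (h ▸ hw0)
    have hj : Joins (pw W w0 ∘ src) (pw W w0 ∘ dst) e w0 v := by
      have a1 : pw W w0 v = v := by unfold pw; rw [if_neg hv]
      have a2 : pw W w0 w = w0 := by unfold pw; rw [if_pos hw]
      rcases he with ⟨h1, h2⟩ | ⟨h1, h2⟩
      · right
        simp only [Function.comp, h1, h2, a1, a2, and_self]
      · left
        simp only [Function.comp, h1, h2, a1, a2, and_self]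
    have h1 := hC.con _ _ w0 v e h0 hne hj
    have h2 : (pw (insert v W) w0 : V → V) = phi w0 v ∘ pw W w0 := by
      funext x
      unfold pw phi
      simp only [Function.comp, mem_insert]
      by_cases hx : x = v
      · subst hx; simp [hv]
      · by_cases hx2 : x ∈ W
        · simp [hx2]
        · simp [hx, hx2]
    rw [h2]
    exact h1

/-- a minimal counterexample -/
structure MC (C : (E → V) → (E → V) → Prop) (src dst : E → V) : Prop where
  nz : ¬ NZ src dst
  cut1 : ∀ Y, (dlt src dst Y).card ≠ 1
  cls : C src dst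
  min : ∀ src' dst', nl src' dst' < nl src dst → C src' dst' →
    (∀ Y, (dlt src' dst' Y).card ≠ 1) → NZ src' dst'

variable {C : (E → V) → (E → V) → Prop} {src dst : E → V}

/-- a flow of a contraction -/
theorem MC.con (hC : Closed C) (h : MC C src dst) {W : Finset V} (hW : Grow src dst W)
    {e : E} (he : src e ≠ dst e) (h1 : src e ∈ W) (h2 : dst e ∈ W) :
    ∃ f : E → K, (∀ e, f e ≠ 0) ∧ ∀ x, x ∉ W → dv src dst f x = 0 := by
  obtain ⟨w, hw, hc⟩ := hC.grow hW h.cls
  obtain ⟨f, hf, hd⟩ := h.min _ _ (by
    unfold nl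
    apply card_lt_card
    rw [ssubset_iff_of_subset]
    · refine ⟨e, by simpa using he, ?_⟩
      simp only [mem_filter, mem_univ, true_and, not_not, Function.comp]
      unfold pw
      rw [if_pos h1, if_pos h2]
    · intro d hd
      simp only [mem_filter, mem_univ, true_and, Function.comp] at hd ⊢
      intro h; exact hd (by rw [h])) hc (fun Y => by
    rw [dlt_comp]; exact h.cut1 _)
  refine ⟨f, hf, fun x hx => ?_⟩
  have h3 := hd x
  rw [dv_comp] at h3
  have h4 : univ.filter (fun y => pw W w y = x) = {x} := by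
    ext y
    simp only [mem_filter, mem_univ, true_and, mem_singleton]
    unfold pw
    constructor
    · intro h5
      by_cases hy : y ∈ W
      · rw [if_pos hy] at h5; exact absurd (h5 ▸ hw) hx
      · rw [if_neg hy] at h5; exact h5
    · rintro rfl
      rw [if_neg hx]
  rw [h4, sum_singleton] at h3
  exact h3

/-- a flow of a subgraph -/
theorem MC.del (hC : Closed C) (h : MC C src dst) {D : Finset E}
    {e : E} (he : src e ≠ dst e) (h1 : e ∈ D)
    (hb : ∀ Y, (dlt src dst Y \ D).card ≠ 1) :
    ∃ f : E → K, (∀ e, e ∉ D → f e ≠ 0) ∧ (∀ e ∈ D, f e = 0) ∧ ∀ x, dv src dst f x = 0 := by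
  obtain ⟨f, hf, hd⟩ := h.min src (lp src dst D) (by
    unfold nl
    apply card_lt_card
    rw [ssubset_iff_of_subset]
    · refine ⟨e, by simpa using he, ?_⟩
      simp [lp, h1]
    · intro d hd
      simp only [mem_filter, mem_univ, true_and] at hd ⊢
      intro h3; apply hd; unfold lp; split_ifs
      · rfl
      · exact h3) (hC.del _ _ _ h.cls) (fun Y => by
    have : dlt src (lp src dst D) Y = dlt src dst Y \ D := by
      ext d
      rw [mem_sdiff, mem_dlt, mem_dlt]
      unfold lp
      by_cases hd : d ∈ D <;> simp [hd]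
    rw [this]; exact hb Y)
  refine ⟨fun e => if e ∈ D then 0 else f e, fun e he => by simp [he, hf], fun e he => by simp [he],
    fun x => ?_⟩
  refine Eq.trans ?_ (hd x)
  unfold dv
  refine sum_congr rfl fun e _ => ?_
  unfold lp
  by_cases h3 : e ∈ D
  · simp only [if_pos h3]
    rw [jn_zero, jn_loop]
  · simp only [if_neg h3]

/-- no cut with two edges -/
theorem MC.cut2 (hC : Closed C) (h : MC C src dst) (Y : Finset V) :
    (dlt src dst Y).card ≠ 2 := by
  intro hY
  obtain ⟨e1, e2, hne, hY2⟩ := card_eq_two.mp hY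
  have he2 : e2 ∈ dlt src dst Y := by rw [hY2]; simp
  have hl : src e2 ≠ dst e2 := by
    intro h; rw [mem_dlt] at he2; apply he2; rw [h]
  have hG : Grow src dst {src e2, dst e2} :=
    Grow.add {dst e2} (src e2) (dst e2) e2 (Grow.one _) (by simpa using hl) (by simp)
      (Or.inl ⟨rfl, rfl⟩)
  obtain ⟨f, hf, hd⟩ := h.con hC hG hl (by simp) (by simp)
  have hsum := sum_dv_univ src dst f
  rw [← sum_subset (subset_univ ({src e2, dst e2} : Finset V)) (fun x _ hx => hd x hx),
    sum_pair hl] at hsum
  set s := dv src dst f (src e2) with hs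
  have hs2 : dv src dst f (dst e2) = s := (K_eq_of_add hsum).symm
  set g : E → K := fun e => f e + (if e = e2 then s else 0) with hg
  have hdg : ∀ x, dv src dst g x = 0 := by
    intro x
    rw [hg, dv_add]
    have h1 : dv src dst (fun e => if e = e2 then s else 0) x = jn (src e2) (dst e2) s x := by
      unfold dv
      rw [sum_eq_single e2]
      · simp
      · intro b _ hb; simp [hb, jn_zero]
      · simp
    rw [h1]
    unfold jn
    by_cases hx1 : src e2 = x
    · have hx2 : dst e2 ≠ x := fun h => hl (hx1.trans h.symm)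
      rw [if_pos hx1, if_neg hx2, ← hx1, ← hs, add_zero, K_add_self]
    · by_cases hx2 : dst e2 = x
      · rw [if_neg hx1, if_pos hx2, ← hx2, hs2, zero_add, K_add_self]
      · rw [if_neg hx1, if_neg hx2, hd x (by
          simp only [mem_insert, mem_singleton, not_or]
          exact ⟨fun h => hx1 h.symm, fun h => hx2 h.symm⟩)]
        simp
  apply h.nz
  refine ⟨g, fun e => ?_, hdg⟩
  by_cases he : e = e2
  · have h1 := sum_dv src dst g Y
    rw [sum_eq_zero fun x _ => hdg x, hY2, sum_pair hne] at h1
    rw [he, ← K_eq_of_add h1.symm, hg]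
    simp only [if_neg hne, add_zero]
    exact hf e1
  · rw [hg]; simp only [if_neg he, add_zero]; exact hf e

theorem MC.cut3 (hC : Closed C) (h : MC C src dst) (Y : Finset V) :
    (dlt src dst Y).card = 0 ∨ 3 ≤ (dlt src dst Y).card := by
  have h1 := h.cut1 Y
  have h2 := h.cut2 hC Y
  omega

end Pool.Agent.TH499.TF
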