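import Pool.Agent.TH499.TF.LemB

set_option autoImplicit false
set_option linter.unusedSectionVars false

/-! # Local structure at a vertex of the bag -/

namespace Pool.Agent.TH499.TF

open Finset

variable {V : Type} [Fintype V] [DecidableEq V]
variable {A : V → V → Prop} {X : Finset V}

theorem DA.ed (g : G5 A) {u w x x' q r s : V} (hw : A u w) (hwX : w ∈ X)
    (h : DA A X u x x' q r s) : w ≠ q ∧ w ≠ r ∧ w ≠ s := by
  have h1 : ∀ {r s}, DA A X u x x' q r s → w ≠ r := by
    rintro r s h rfl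
    exact g.sq u w x' x (fun e => h.hx' (e ▸ h.hu)) (fun e => h.hx (e ▸ hwX)) hw
      (g.symm _ _ h.xr) (g.symm _ _ h.xx) h.xu
  refine ⟨?_, h1 h, h1 h.swap⟩
  rintro rfl
  exact g.tri _ _ _ hw (g.symm _ _ h.xq) h.xu

theorem DA.eed (hX : X.card ≤ 5) (g : G5 A) {u w w' x x' q r s : V} (hw : A u w) (hwX : w ∈ X)
    (hw' : A u w') (hwX' : w' ∈ X) (hne : w ≠ w') (h : DA A X u x x' q r s) : False := by
  obtain ⟨a1, a2, a3⟩ := h.ed g hw hwX
  obtain ⟨b1, b2, b3⟩ := h.ed g hw' hwX'
  have c1 : u ≠ w := fun e => g.irr u (by rw [← e] at hw; exact hw)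
  have c2 : u ≠ w' := fun e => g.irr u (by rw [← e] at hw'; exact hw')
  refine six hX (a := u) (b := w) (c := w') (d := q) (e := r) (f := s) ?_ h.hu hwX hwX' h.hq
    h.hr h.hs
  have := h.uq; have := h.ur; have := h.us; have := h.qr; have := h.qs; have := h.rs
  (simp only [List.nodup_cons, List.mem_cons, List.not_mem_nil, not_or, not_false_eq_true,
    List.nodup_nil, and_true, or_false]; repeat' apply And.intro) <;> assumption

theorem NoC.edd (hX : X.card ≤ 5) (N : NoC A) {u w x x' q r s y y' q2 r2 s2 : V} (hw : A u w)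
    (hwX : w ∈ X) (h : DA A X u x x' q r s) (h' : DA A X u y y' q2 r2 s2) (hne : x ≠ y) :
    False := by
  have key : ∀ {r s}, DA A X u x x' q r s → q2 = r → False := by
    rintro r s h rfl
    obtain ⟨a1, a2, a3⟩ := h.ed N.g hw hwX
    obtain ⟨b1, b2, b3⟩ := h'.ed N.g hw hwX
    have c1 : u ≠ w := fun e => N.g.irr u (by rw [← e] at hw; exact hw)
    have hex := exh hX (a := u) (b := w) (c := q) (d := q2) (e := s) (by
      have := h.uq; have := h.ur; have := h.us; have := h.qr; have := h.qs; have := h.rs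
      (simp only [List.nodup_cons, List.mem_cons, List.not_mem_nil, not_or, not_false_eq_true,
        List.nodup_nil, and_true, or_false]; repeat' apply And.intro) <;> assumption) h.hu hwX h.hq h.hr h.hs
    refine N.same h (h'.pick2 ?_)
    intro z hz hyz
    rcases hex z hz with e | e | e | e | e
    · exact Or.inl e
    · exfalso
      subst e
      rcases (h'.n2 z).mp hyz with e | e | e
      · exact h'.hx (e ▸ hz)
      · exact b2 e
      · exact b3 e
    · exact Or.inr (Or.inr (Or.inl e))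
    · exact Or.inr (Or.inl e)
    · exact Or.inr (Or.inr (Or.inr e))
  obtain ⟨a1, a2, a3⟩ := h.ed N.g hw hwX
  obtain ⟨b1, b2, b3⟩ := h'.ed N.g hw hwX
  have c1 : u ≠ w := fun e => N.g.irr u (by rw [← e] at hw; exact hw)
  have hex := exh hX (a := u) (b := w) (c := q) (d := r) (e := s) (by
    have := h.uq; have := h.ur; have := h.us; have := h.qr; have := h.qs; have := h.rs
    (simp only [List.nodup_cons, List.mem_cons, List.not_mem_nil, not_or, not_false_eq_true,
      List.nodup_nil, and_true, or_false]; repeat' apply And.intro) <;> assumption) h.hu hwX h.hq h.hr h.hs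
  rcases hex q2 h'.hq with e | e | e | e | e
  · exact h'.uq e.symm
  · exact b1 e.symm
  · exact RR.ne N.g (N.g.symm _ _ h.xu) (N.g.symm _ _ h'.xu) hne h.rr h'.rr e.symm
  · exact key h e
  · exact key h.swap e

theorem SA.ss (hX : X.card ≤ 5) (g : G5 A) {u v v' i i' k k' z r : V} (huX : u ∈ X)
    (hv : A u v) (hv' : A u v') (hz : A u z) (n1 : v ≠ v') (n2 : v ≠ z) (n3 : v' ≠ z)
    (h : SA A X u v i i') (h' : SA A X u v' k k') (hr : RR A X u z r) : False := by
  refine six hX (a := u) (b := i) (c := i') (d := k) (e := k') (f := r) ?_ huX h.hi h.hi'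
    h'.hi h'.hi' hr.1
  have a1 := h.iu.symm; have a2 := h.iu'.symm; have a3 := h'.iu.symm; have a4 := h'.iu'.symm
  have a5 := hr.2.1.symm
  have a6 := h.ii; have a7 := h'.ii
  have b1 := RR.ne g hv hv' n1 h.rr h'.rr
  have b2 := RR.ne g hv hv' n1 h.rr h'.rr'
  have b3 := RR.ne g hv hv' n1 h.rr' h'.rr
  have b4 := RR.ne g hv hv' n1 h.rr' h'.rr'
  have b5 := RR.ne g hv hz n2 h.rr hr
  have b6 := RR.ne g hv hz n2 h.rr' hr
  have b7 := RR.ne g hv' hz n3 h'.rr hr
  have b8 := RR.ne g hv' hz n3 h'.rr' hr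
  (simp only [List.nodup_cons, List.mem_cons, List.not_mem_nil, not_or, not_false_eq_true,
    List.nodup_nil, and_true, or_false]; repeat' apply And.intro) <;> assumption

theorem SA.esd (hX : X.card ≤ 5) (g : G5 A) {u w v i i' x x' q r s : V}
    (hw : A u w) (hwX : w ∈ X) (hv : A u v) (h : SA A X u v i i') (h' : DA A X u x x' q r s)
    (hvx : v ≠ x) : False := by
  have hwv : w ≠ v := fun e => h.hv (e ▸ hwX)
  have hwx : w ≠ x := fun e => h'.hx (e ▸ hwX)
  have hx := g.symm _ _ h'.xu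
  have rw' : RR A X u w w := ⟨hwX, fun e => g.irr u (by rw [e] at hw; exact hw), Or.inl rfl⟩
  have hex := exh hX (a := u) (b := w) (c := i) (d := i') (e := q) (by
    have a1 := h.iu.symm; have a2 := h.iu'.symm; have a3 := h'.uq; have a4 := rw'.2.1.symm
    have a6 := h.ii
    have b1 := RR.ne g hw hv hwv rw' h.rr
    have b2 := RR.ne g hw hv hwv rw' h.rr'
    have b3 := RR.ne g hw hx hwx rw' h'.rr
    have b4 := RR.ne g hv hx hvx h.rr h'.rr
    have b5 := RR.ne g hv hx hvx h.rr' h'.rr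
    (simp only [List.nodup_cons, List.mem_cons, List.not_mem_nil, not_or, not_false_eq_true,
      List.nodup_nil, and_true, or_false]; repeat' apply And.intro) <;> assumption) h'.hu hwX h.hi h.hi' h'.hq
  obtain ⟨b1, b2, b3⟩ := h'.ed g hw hwX
  have h2 : DA A X u x x' q i i' := by
    refine h'.pick2 ?_
    intro z hz hyz
    rcases hex z hz with e | e | e | e | e
    · exact Or.inl e
    · exfalso
      subst e
      rcases (h'.n2 z).mp hyz with e | e | e
      · exact h'.hx (e ▸ hz)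
      · exact b2 e
      · exact b3 e
    · exact Or.inr (Or.inr (Or.inl e))
    · exact Or.inr (Or.inr (Or.inr e))
    · exact Or.inr (Or.inl e)
  refine g.sq v i x' i' ?_ h.ii h.vi (g.symm _ _ h2.xr) h2.xs (g.symm _ _ h.vi')
  rintro rfl
  rcases (h'.n2 u).mp (g.symm _ _ hv) with e | e | e
  · exact h'.hx (e ▸ h'.hu)
  · exact h'.ur e
  · exact h'.us e

theorem NoC.sdd (hX : X.card ≤ 5) (N : NoC A) {P : Finset V} (L : Loc A X P)
    {u v i i' x x' q r s y y' q2 r2 s2 : V} (huP : u ∈ P) (hv : A u v)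
    (h : SA A X u v i i') (h1 : DA A X u x x' q r s) (h2 : DA A X u y y' q2 r2 s2)
    (hvx : v ≠ x) (hvy : v ≠ y) (hxy : x ≠ y) : False := by
  have g := N.g
  have hx := g.symm _ _ h1.xu
  have hy := g.symm _ _ h2.xu
  have a1 := h.iu.symm; have a2 := h.iu'.symm; have a3 := h1.uq; have a4 := h2.uq
  have a6 := h.ii
  have b1 := RR.ne g hv hx hvx h.rr h1.rr
  have b2 := RR.ne g hv hx hvx h.rr' h1.rr
  have b3 := RR.ne g hv hy hvy h.rr h2.rr
  have b4 := RR.ne g hv hy hvy h.rr' h2.rr
  have b5 := RR.ne g hx hy hxy h1.rr h2.rr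
  have hex := exh hX (a := u) (b := i) (c := i') (d := q) (e := q2) (by
    (simp only [List.nodup_cons, List.mem_cons, List.not_mem_nil, not_or, not_false_eq_true,
      List.nodup_nil, and_true, or_false]; repeat' apply And.intro) <;> assumption) h1.hu h.hi h.hi' h1.hq h2.hq
  have e1 : ∀ z ∈ X, z = u ∨ z = q ∨ z = i ∨ z = i' ∨ z = q2 := by
    intro z hz
    rcases hex z hz with e | e | e | e | e
    · exact Or.inl e
    · exact Or.inr (Or.inr (Or.inl e))
    · exact Or.inr (Or.inr (Or.inr (Or.inl e)))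
    · exact Or.inr (Or.inl e)
    · exact Or.inr (Or.inr (Or.inr (Or.inr e)))
  have e2 : ∀ z ∈ X, z = u ∨ z = q2 ∨ z = i ∨ z = i' ∨ z = q := by
    intro z hz
    rcases hex z hz with e | e | e | e | e
    · exact Or.inl e
    · exact Or.inr (Or.inr (Or.inl e))
    · exact Or.inr (Or.inr (Or.inr (Or.inl e)))
    · exact Or.inr (Or.inr (Or.inr (Or.inr e)))
    · exact Or.inr (Or.inl e)
  have sqx : ∀ {x x' q r s : V}, DA A X u x x' q r s → DA A X u x x' q i i' → False := by
    intro x x' q r s h' h2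
    refine g.sq v i x' i' ?_ h.ii h.vi (g.symm _ _ h2.xr) h2.xs (g.symm _ _ h.vi')
    rintro rfl
    rcases (h'.n2 u).mp (g.symm _ _ hv) with e | e | e
    · exact h'.hx (e ▸ h'.hu)
    · exact h'.ur e
    · exact h'.us e
  have nu : N3 A u v x y := by
    intro z
    constructor
    · intro hz
      by_contra hcon
      push Not at hcon
      obtain ⟨n1, n2, n3⟩ := hcon
      obtain ⟨r, hr⟩ := L.rr g huP h1.hu hz
      rcases hex r hr.1 with e | e | e | e | e
      · exact hr.2.1 e
      · subst e; exact RR.disj g hz hv n1 hr h.rr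
      · subst e; exact RR.disj g hz hv n1 hr h.rr'
      · subst e; exact RR.disj g hz hx n2 hr h1.rr
      · subst e; exact RR.disj g hz hy n3 hr h2.rr
    · rintro (rfl | rfl | rfl)
      · exact hv
      · exact hx
      · exact hy
  have nv : N3 A v u i i' := by
    intro z
    constructor
    · intro hz
      rcases hex z (h.hall z hz) with e | e | e | e | e
      · exact Or.inl e
      · exact Or.inr (Or.inl e)
      · exact Or.inr (Or.inr e)
      · exfalso; subst e
        exact RR.disj g hv hx hvx ⟨h1.hq, h1.uq.symm, Or.inr hz⟩ h1.rr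
      · exfalso; subst e
        exact RR.disj g hv hy hvy ⟨h2.hq, h2.uq.symm, Or.inr hz⟩ h2.rr
    · rintro (rfl | rfl | rfl)
      · exact g.symm _ _ hv
      · exact h.vi
      · exact h.vi'
  obtain ⟨d1, d2, d3, d4⟩ := h1.disj g h2 b5
  have conf : ∀ {i i' : V}, SA A X u v i i' → N3 A v u i i' → i ≠ q → i' ≠ q → i ≠ q2 → i' ≠ q2 →
      DA A X u x x' q i q2 → DA A X u y y' q2 i' q → False := by
    intro i i' h nv b1 b2 b3 b4 k1 k2
    have i1 : ∀ z z', z ∉ X → z' ∈ X → z ≠ z' := fun z z' h1 h2 h3 => h1 (h3 ▸ h2)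
    have i2 : ∀ z z', z ∉ X → z' ∈ X → z' ≠ z := fun z z' h1 h2 h3 => h1 (h3 ▸ h2)
    have vx' : ∀ {x x' q r s : V}, DA A X u x x' q r s → v ≠ x' := by
      rintro x x' q r s h' rfl
      rcases (h'.n2 u).mp (g.symm _ _ hv) with e | e | e
      · exact h'.hx (e ▸ h'.hu)
      · exact h'.ur e
      · exact h'.us e
    have f1 := vx' k1
    have f2 := vx' k2
    have xx : x ≠ x' := fun h1 => g.irr x (by have := k1.xx; rwa [← h1] at this)
    have yy : y ≠ y' := fun h1 => g.irr y (by have := k2.xx; rwa [← h1] at this)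
    refine N.c1 u v x x' y y' i i' q q2 ?_ nu nv ⟨k1.n1, k1.n2⟩ ⟨k2.n1, k2.n2⟩
    have := k1.hx; have := k1.hx'; have := k2.hx; have := k2.hx'
    have := k1.hu; have := k1.hq; have := k2.hq; have := h.hi; have := h.hi'; have := h.hv
    have a1 := h.iu.symm; have a2 := h.iu'.symm; have a6 := h.ii
    (simp only [List.nodup_cons, List.mem_cons, List.not_mem_nil, not_or, not_false_eq_true,
      List.nodup_nil, and_true, or_false]; repeat' apply And.intro) <;> first | assumption | exact i1 _ _ (by assumption) (by assumption) |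
      exact i2 _ _ (by assumption) (by assumption)
  rcases h1.pick3 e1 with k1 | k1 | k1
  · exact sqx h1 k1
  · rcases h2.pick3 e2 with k2 | k2 | k2
    · exact sqx h2 k2
    · exact N.same k1.swap k2.swap
    · exact conf h nv b1 b2 b3 b4 k1 k2
  · rcases h2.pick3 e2 with k2 | k2 | k2
    · exact sqx h2 k2
    · exact conf h.swap nv.swap b2 b1 b4 b3 k1 k2
    · exact N.same k1.swap k2.swap

theorem NoC.c2' (N : NoC A) {u x1 y1 x2 y2 x3 y3 a b c n : V} (h1 : DA A X u x1 y1 a n c)
    (h2 : DA A X u x2 y2 b n a) (h3 : DA A X u x3 y3 c n b) : False := by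
  have g := N.g
  have ab := h2.qs.symm
  have ac := h1.qs
  have bc := h3.qs.symm
  have an := h1.qr
  have bn := h2.qr
  have cn := h3.qr
  obtain ⟨d1, d2, d3, d4⟩ := h1.disj g h2 ab
  obtain ⟨f1, f2, f3, f4⟩ := h1.disj g h3 ac
  obtain ⟨e1, e2, e3, e4⟩ := h2.disj g h3 bc
  have i1 : ∀ z z', z ∉ X → z' ∈ X → z ≠ z' := fun z z' h1 h2 h3 => h1 (h3 ▸ h2)
  have i2 : ∀ z z', z ∉ X → z' ∈ X → z' ≠ z := fun z z' h1 h2 h3 => h1 (h3 ▸ h2)
  have xx1 : x1 ≠ y1 := fun h => g.irr x1 (by have := h1.xx; rwa [← h] at this)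
  have xx2 : x2 ≠ y2 := fun h => g.irr x2 (by have := h2.xx; rwa [← h] at this)
  have xx3 : x3 ≠ y3 := fun h => g.irr x3 (by have := h3.xx; rwa [← h] at this)
  refine N.c2 x1 u a y1 n c x2 b y2 x3 y3 ?_ ⟨h1.n1, h1.n2⟩ ⟨h2.n1, h2.n2⟩ ⟨h3.n1, h3.n2⟩
  have m1 := h1.hx; have m2 := h1.hx'; have m3 := h2.hx; have m4 := h2.hx'; have m5 := h3.hx
  have m6 := h3.hx'; have m7 := h1.hu; have m8 := h1.hq; have m9 := h1.hr; have m10 := h1.hs
  have m11 := h2.hq
  have ua := h1.uq; have un := h1.ur; have uc := h1.us; have ub := h2.uq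
  have ab' := ab.symm; have ac' := ac.symm; have bc' := bc.symm; have an' := an.symm
  have bn' := bn.symm; have cn' := cn.symm
  have d1' := d1.symm; have d2' := d2.symm; have d3' := d3.symm; have d4' := d4.symm
  have f1' := f1.symm; have f2' := f2.symm; have f3' := f3.symm; have f4' := f4.symm
  have e1' := e1.symm; have e2' := e2.symm; have e3' := e3.symm; have e4' := e4.symm
  (simp only [List.nodup_cons, List.mem_cons, List.not_mem_nil, not_or, not_false_eq_true,
    List.nodup_nil, and_true, or_false]; repeat' apply And.intro) <;> first | assumption | exact i1 _ _ (by assumption) (by assumption) |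
    exact i2 _ _ (by assumption) (by assumption)

theorem NoC.c3' (N : NoC A) {u x1 y1 x2 y2 x3 y3 a b c n : V} (h1 : DA A X u x1 y1 b a n)
    (h2 : DA A X u x2 y2 c a b) (h3 : DA A X u x3 y3 a n c) : False := by
  have g := N.g
  have ab := h2.rs
  have ac := h3.qs
  have bc := h2.qs.symm
  have an := h1.rs
  have bn := h1.qs
  have cn := h3.rs.symm
  obtain ⟨d1, d2, d3, d4⟩ := h1.disj g h2 bc
  obtain ⟨f1, f2, f3, f4⟩ := h1.disj g h3 ab.symm
  obtain ⟨e1, e2, e3, e4⟩ := h2.disj g h3 ac.symm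
  have i1 : ∀ z z', z ∉ X → z' ∈ X → z ≠ z' := fun z z' h1 h2 h3 => h1 (h3 ▸ h2)
  have i2 : ∀ z z', z ∉ X → z' ∈ X → z' ≠ z := fun z z' h1 h2 h3 => h1 (h3 ▸ h2)
  have xx1 : x1 ≠ y1 := fun h => g.irr x1 (by have := h1.xx; rwa [← h] at this)
  have xx2 : x2 ≠ y2 := fun h => g.irr x2 (by have := h2.xx; rwa [← h] at this)
  have xx3 : x3 ≠ y3 := fun h => g.irr x3 (by have := h3.xx; rwa [← h] at this)
  refine N.c3 x1 u b y1 a n x2 c y2 x3 y3 ?_ ⟨h1.n1, h1.n2⟩ ⟨h2.n1, h2.n2⟩ ⟨h3.n1, h3.n2⟩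
  have m1 := h1.hx; have m2 := h1.hx'; have m3 := h2.hx; have m4 := h2.hx'; have m5 := h3.hx
  have m6 := h3.hx'; have m7 := h1.hu; have m8 := h1.hq; have m9 := h1.hr; have m10 := h1.hs
  have m11 := h2.hq
  have ub := h1.uq; have ua := h1.ur; have un := h1.us; have uc := h2.uq
  have ab' := ab.symm; have ac' := ac.symm; have bc' := bc.symm; have an' := an.symm
  have bn' := bn.symm; have cn' := cn.symm
  have d1' := d1.symm; have d2' := d2.symm; have d3' := d3.symm; have d4' := d4.symm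
  have f1' := f1.symm; have f2' := f2.symm; have f3' := f3.symm; have f4' := f4.symm
  have e1' := e1.symm; have e2' := e2.symm; have e3' := e3.symm; have e4' := e4.symm
  (simp only [List.nodup_cons, List.mem_cons, List.not_mem_nil, not_or, not_false_eq_true,
    List.nodup_nil, and_true, or_false]; repeat' apply And.intro) <;> first | assumption | exact i1 _ _ (by assumption) (by assumption) |
    exact i2 _ _ (by assumption) (by assumption)

/-- partners with two common neighbours -/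
theorem DA.part (g : G5 A) {u x x' q r s y y' q2 : V} (h : DA A X u x x' q r s)
    (h' : DA A X u y y' q2 r s) (hne : q ≠ q2) : False := by
  obtain ⟨d1, d2, d3, d4⟩ := h.disj g h' hne
  exact g.sq x' r y' s d4 h.rs h.xr (g.symm _ _ h'.xr) h'.xs (g.symm _ _ h.xs)

theorem NoC.ddd (hX : X.card ≤ 5) (N : NoC A) {u x x' a r s y y' b r2 s2 z z' c r3 s3 : V}
    (h1 : DA A X u x x' a r s) (h2 : DA A X u y y' b r2 s2) (h3 : DA A X u z z' c r3 s3)
    (hxy : x ≠ y) (hxz : x ≠ z) (hyz : y ≠ z) : False := by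
  have g := N.g
  have hx := g.symm _ _ h1.xu
  have hy := g.symm _ _ h2.xu
  have hz := g.symm _ _ h3.xu
  have ab := RR.ne g hx hy hxy h1.rr h2.rr
  have ac := RR.ne g hx hz hxz h1.rr h3.rr
  have bc := RR.ne g hy hz hyz h2.rr h3.rr
  have ua := h1.uq; have ub := h2.uq; have uc := h3.uq
  by_cases hn : ∃ n ∈ X, n ≠ u ∧ n ≠ a ∧ n ≠ b ∧ n ≠ c
  swap
  · push Not at hn
    have e4 : ∀ w ∈ X, w = u ∨ w = a ∨ w = b ∨ w = c := by
      intro w hw
      by_contra hcon
      push Not at hcon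
      exact hcon.2.2.2 (hn w hw hcon.1 hcon.2.1 hcon.2.2.1)
    have k1 : DA A X u x x' a b c := h1.pick2 (fun w hw _ => e4 w hw)
    have k2 : DA A X u y y' b a c := h2.pick2 (fun w hw _ => by
      rcases e4 w hw with e | e | e | e
      · exact Or.inl e
      · exact Or.inr (Or.inr (Or.inl e))
      · exact Or.inr (Or.inl e)
      · exact Or.inr (Or.inr (Or.inr e)))
    exact N.same k1 k2
  obtain ⟨n, hnX, nu, na, nb, nc⟩ := hn
  have nu' := nu.symm; have na' := na.symm; have nb' := nb.symm; have nc' := nc.symm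
  have hex := exh hX (a := u) (b := a) (c := b) (d := c) (e := n) (by
    (simp only [List.nodup_cons, List.mem_cons, List.not_mem_nil, not_or, not_false_eq_true,
      List.nodup_nil, and_true, or_false]; repeat' apply And.intro) <;> assumption) h1.hu h1.hq h2.hq h3.hq hnX
  have e1 : ∀ w ∈ X, w = u ∨ w = a ∨ w = b ∨ w = c ∨ w = n := hex
  have e2 : ∀ w ∈ X, w = u ∨ w = b ∨ w = a ∨ w = c ∨ w = n := by
    intro w hw
    rcases hex w hw with e | e | e | e | e
    · exact Or.inl e
    · exact Or.inr (Or.inr (Or.inl e))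
    · exact Or.inr (Or.inl e)
    · exact Or.inr (Or.inr (Or.inr (Or.inl e)))
    · exact Or.inr (Or.inr (Or.inr (Or.inr e)))
  have e3 : ∀ w ∈ X, w = u ∨ w = c ∨ w = a ∨ w = b ∨ w = n := by
    intro w hw
    rcases hex w hw with e | e | e | e | e
    · exact Or.inl e
    · exact Or.inr (Or.inr (Or.inl e))
    · exact Or.inr (Or.inr (Or.inr (Or.inl e)))
    · exact Or.inr (Or.inl e)
    · exact Or.inr (Or.inr (Or.inr (Or.inr e)))
  rcases h1.pick3 e1 with k1 | k1 | k1 <;> rcases h2.pick3 e2 with k2 | k2 | k2 <;>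
    rcases h3.pick3 e3 with k3 | k3 | k3
  · exact N.same (k1) (k2)
  · exact N.same (k1) (k2)
  · exact N.same (k1) (k2)
  · exact N.same (k1.swap) (k3)
  · exact (k2).part g (k3) bc
  · exact N.c3' (k3) (k1) (k2.swap)
  · exact N.same (k1.swap) (k3)
  · exact N.c3' (k2) (k1.swap) (k3.swap)
  · exact N.same (k2) (k3)
  · exact N.same (k2.swap) (k3.swap)
  · exact N.c3' (k3) (k2) (k1.swap)
  · exact (k1).part g (k3) ac
  · exact N.same (k1) (k2)
  · exact N.same (k1) (k2)
  · exact N.same (k1) (k2)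
  · exact N.c3' (k1) (k3.swap) (k2.swap)
  · exact N.c2' (k1.swap) (k3.swap) (k2.swap)
  · exact (k1).part g (k3) ac
  · exact N.same (k2.swap) (k3.swap)
  · exact N.same (k1) (k3)
  · exact N.c3' (k1) (k2.swap) (k3.swap)
  · exact N.c3' (k2) (k3) (k1.swap)
  · exact N.same (k1) (k3)
  · exact N.c2' (k1.swap) (k2.swap) (k3.swap)
  · exact (k1).part g (k2) ab
  · exact (k1).part g (k2) ab
  · exact (k1).part g (k2) ab

end Pool.Agent.TH499.TF
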