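import Pool.Agent.TH499.TF.Cut3

set_option autoImplicit false

/-! # Adjacency in a minimal counterexample -/

namespace Pool.Agent.TH499.TF

open Finset

variable {V E : Type} [Fintype V] [DecidableEq V] [Fintype E] [DecidableEq E]
variable {C : (E → V) → (E → V) → Prop} {src dst : E → V}

/-- adjacency -/
def Ad (src dst : E → V) (x y : V) : Prop := x ≠ y ∧ ∃ e, Joins src dst e x y

omit [Fintype V] [DecidableEq V] [Fintype E] [DecidableEq E] in
theorem Ad.symm {x y : V} (h : Ad src dst x y) : Ad src dst y x :=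
  ⟨h.1.symm, h.2.imp fun _ he => he.symm⟩

/-- no short circuits -/
structure G5 (A : V → V → Prop) : Prop where
  irr : ∀ x, ¬ A x x
  symm : ∀ x y, A x y → A y x
  tri : ∀ x y z, A x y → A y z → A z x → False
  sq : ∀ x y z w, x ≠ z → y ≠ w → A x y → A y z → A z w → A w x → False

theorem MC.g5 (hC : Closed C) (h : MC C src dst) : G5 (Ad src dst) := by
  refine ⟨fun x hx => hx.1 rfl, fun x y h => h.symm, ?_, ?_⟩
  · rintro x y z ⟨n1, e1, h1⟩ ⟨n2, e2, h2⟩ ⟨n3, e3, h3⟩
    exact h.tri hC n1 n2 n3 h1 h2 h3
  · rintro x y z w a b ⟨n1, e1, h1⟩ ⟨n2, e2, h2⟩ ⟨n3, e3, h3⟩ ⟨n4, e4, h4⟩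
    exact h.sq hC n1 n2 n3 n4 a b h1 h2 h3 h4

/-- edges for the adjacencies of a small part -/
theorem gadget {N m : ℕ} (p q : Fin m → Fin N)
    (hpq : ∀ k k', ((p k = p k' ∧ q k = q k') ∨ (p k = q k' ∧ q k = p k')) → k = k')
    {l : Fin N → V} (hl : Function.Injective l)
    (ha : ∀ k, Ad src dst (l (p k)) (l (q k))) :
    ∃ ε : Fin m → E, Function.Injective ε ∧ ∀ k, Joins src dst (ε k) (l (p k)) (l (q k)) := by
  choose ε hε using fun k => (ha k).2
  refine ⟨ε, ?_, hε⟩
  intro k k' hk
  have h1 := hε k
  rw [hk] at h1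
  apply hpq
  rcases h1.ends (hε k') with ⟨a, b⟩ | ⟨a, b⟩
  · exact Or.inl ⟨hl a, hl b⟩
  · exact Or.inr ⟨hl a, hl b⟩

/-- the demand at an inner vertex vanishes -/
theorem MC.inner (hC : Closed C) (h : MC C src dst) {m : ℕ} {ε : Fin m → E} {f : E → K} {x : V}
    (hx : ∀ y, Ad src dst x y → ∃ k, Joins src dst (ε k) x y) :
    outd src dst ε f x = 0 := by
  apply outd_zero
  intro e hne he
  rcases he with he | he
  · obtain ⟨k, hk⟩ := hx (dst e) ⟨fun h => hne (he.trans h), e, Or.inl ⟨he, rfl⟩⟩
    refine ⟨k, h.par hC (x := x) (y := dst e) (fun h => hne (he.trans h)) (Or.inl ⟨he, rfl⟩) hk⟩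
  · obtain ⟨k, hk⟩ := hx (src e) ⟨fun h => hne (h.symm.trans he.symm), e, Or.inr ⟨rfl, he⟩⟩
    refine ⟨k, h.par hC (x := x) (y := src e) (fun h => hne (h.symm.trans he.symm))
      (Or.inr ⟨rfl, he⟩) hk⟩

/-- neighbours -/
def nbs (A : V → V → Prop) [DecidableRel A] (x : V) : Finset V := univ.filter (A x)

/-- a vertex with an edge has three neighbours -/
theorem MC.deg (hC : Closed C) (h : MC C src dst) {x y : V} (hxy : Ad src dst x y)
    (S : Finset V) (hS : ∀ z, Ad src dst x z → z ∈ S) : 3 ≤ S.card := by
  classical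
  have h1 : (dlt src dst {x}).card ≠ 0 := by
    obtain ⟨hne, e, he⟩ := hxy
    intro h0
    rw [card_eq_zero] at h0
    have : e ∈ dlt src dst {x} := by
      rw [mem_dlt]
      simp only [mem_singleton]
      rcases he with ⟨a, b⟩ | ⟨a, b⟩
      · rw [a, b]; intro h; exact hne (h.mp rfl).symm
      · rw [a, b]; intro h; exact hne (h.mpr rfl).symm
    rw [h0] at this
    simp at this
  have h2 : 3 ≤ (dlt src dst {x}).card := by
    rcases h.cut3 hC {x} with h2 | h2
    · exact absurd h2 h1
    · exact h2
  refine h2.trans ?_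
  refine card_le_card_of_injOn (fun e => if src e = x then dst e else src e) ?_ ?_
  · intro e he
    rw [mem_coe, mem_dlt] at he
    simp only [mem_singleton] at he
    rw [mem_coe]
    apply hS
    by_cases hs : src e = x
    · simp only [if_pos hs]
      exact ⟨fun h => he ⟨fun _ => h.symm, fun _ => hs⟩, e, Or.inl ⟨hs, rfl⟩⟩
    · simp only [if_neg hs]
      have hd : dst e = x := by
        by_contra hd
        exact he ⟨fun h => absurd h hs, fun h => absurd h hd⟩
      exact ⟨fun h => hs h.symm, e, Or.inr ⟨rfl, hd⟩⟩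
  · intro e he e' he' hee
    rw [mem_coe, mem_dlt] at he he'
    simp only [mem_singleton] at he he' hee
    have key : ∀ e, ¬ (src e = x ↔ dst e = x) →
        Joins src dst e x (if src e = x then dst e else src e) ∧
        x ≠ (if src e = x then dst e else src e) := by
      intro e he
      by_cases hs : src e = x
      · simp only [if_pos hs]
        exact ⟨Or.inl ⟨hs, rfl⟩, fun h => he ⟨fun _ => h.symm, fun _ => hs⟩⟩
      · simp only [if_neg hs]
        have hd : dst e = x := by
          by_contra hd
          exact he ⟨fun h => absurd h hs, fun h => absurd h hd⟩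
        exact ⟨Or.inr ⟨rfl, hd⟩, fun h => hs h.symm⟩
    obtain ⟨k1, k2⟩ := key e he
    obtain ⟨k3, _⟩ := key e' he'
    rw [← hee] at k3
    exact h.par hC k2 k1 k3

/-- the neighbours of `x` are `a`, `b`, `c` -/
def N3 (A : V → V → Prop) (x a b c : V) : Prop := ∀ z, A x z ↔ (z = a ∨ z = b ∨ z = c)

/-- every element of the list has an earlier neighbour -/
theorem grow_list {l : List V} (hnd : l.Nodup) (hne : l ≠ [])
    (h : ∀ i (hi : i < l.length), 0 < i → ∃ j, ∃ hj : j < i,
      Ad src dst (l[i]) (l[j]'(hj.trans hi))) : Grow src dst l.toFinset := by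
  have key : ∀ n, 1 ≤ n → n ≤ l.length → Grow src dst (l.take n).toFinset := by
    intro n
    induction n with
    | zero => intro h; omega
    | succ n ih =>
      intro _ hn
      by_cases h0 : n = 0
      · subst h0
        obtain ⟨a, t, rfl⟩ := List.exists_cons_of_ne_nil hne
        simpa using Grow.one a
      · have hg := ih (by omega) (by omega)
        have hnl : n < l.length := by omega
        obtain ⟨j, hj, ha⟩ := h n hnl (by omega)
        have ht : (l.take (n + 1)).toFinset = insert (l[n]) (l.take n).toFinset := by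
          rw [List.take_succ_eq_append_getElem hnl]
          ext z
          simp only [List.mem_toFinset, List.mem_append, List.mem_singleton, mem_insert]
          exact or_comm
        rw [ht]
        obtain ⟨_, e, he⟩ := ha
        refine Grow.add _ _ (l[j]'(hj.trans hnl)) e hg ?_ ?_ he
        · intro hmem
          rw [List.mem_toFinset] at hmem
          obtain ⟨i, hi, hi2⟩ := List.getElem_of_mem hmem
          rw [List.getElem_take] at hi2
          have := (List.Nodup.getElem_inj_iff hnd).mp hi2
          rw [List.length_take] at hi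
          omega
        · rw [List.mem_toFinset]
          rw [List.mem_take_iff_getElem]
          exact ⟨j, by omega, rfl⟩
  have := key l.length (by
    have := List.length_pos_of_ne_nil hne
    omega) le_rfl
  rwa [List.take_length] at this

end Pool.Agent.TH499.TF
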