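import Pool.Agent.TH499.TF.Red

set_option autoImplicit false

/-! # Circuits of length four -/

namespace Pool.Agent.TH499.TF

open Finset

variable {V E : Type} [Fintype V] [DecidableEq V] [Fintype E] [DecidableEq E]

/-- parity of the degree in `D` -/
def pd (src dst : E → V) (D : Finset E) (x : V) : ZMod 2 :=
  ∑ e ∈ D, ((if src e = x then 1 else 0) + (if dst e = x then 1 else 0))

theorem z2_add_self (a : ZMod 2) : a + a = 0 := by revert a; decide

omit [Fintype V] [Fintype E] [DecidableEq E] in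
theorem sum_pd (src dst : E → V) (D : Finset E) (Y : Finset V) :
    ∑ x ∈ Y, pd src dst D x = ∑ e ∈ D, if (src e ∈ Y ↔ dst e ∈ Y) then 0 else 1 := by
  unfold pd
  rw [sum_comm]
  refine sum_congr rfl fun e _ => ?_
  rw [sum_add_distrib, sum_ite_eq, sum_ite_eq]
  by_cases h1 : src e ∈ Y <;> by_cases h2 : dst e ∈ Y <;> simp [h1, h2, z2_add_self]

/-- an odd vertex is joined to another odd vertex -/
theorem switch (src dst : E → V) (A : Finset E) (T : Finset V) {u : V} (hu : u ∈ T)
    (hT : ∀ x, pd src dst A x = if x ∈ T then 1 else 0) :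
    ∃ v ∈ T, v ≠ u ∧ ∃ D ⊆ A, ∀ x, pd src dst D x
      = (if x = u then 1 else 0) + (if x = v then 1 else 0) := by
  classical
  by_contra hcon
  push Not at hcon
  set R : Finset V := univ.filter (fun z => ∃ D ⊆ A, ∀ x, pd src dst D x
      = (if x = u then 1 else 0) + (if x = z then 1 else 0)) with hR
  have huR : u ∈ R := by
    rw [hR, mem_filter]
    refine ⟨mem_univ _, ∅, empty_subset _, fun x => ?_⟩
    unfold pd
    rw [sum_empty, z2_add_self]
  have hTR : T ∩ R = {u} := by
    ext v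
    rw [mem_inter, mem_singleton]
    constructor
    · rintro ⟨h1, h2⟩
      by_contra h3
      rw [hR, mem_filter] at h2
      obtain ⟨_, D, hD, hD2⟩ := h2
      obtain ⟨x, hx⟩ := hcon v h1 h3 D hD
      exact hx (hD2 x)
    · rintro rfl; exact ⟨hu, huR⟩
  have h1 : ∑ x ∈ R, pd src dst A x = 1 := by
    rw [sum_congr rfl fun x _ => hT x, ← sum_filter]
    have : R.filter (fun x => x ∈ T) = {u} := by
      rw [← hTR]; ext x; simp [and_comm]
    rw [this, sum_singleton]
  rw [sum_pd] at h1
  have hstep : ∀ e ∈ A, ∀ z z', z ∈ R → Joins src dst e z z' → z' ∈ R := by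
    intro e he z z' hz hj
    rw [hR, mem_filter] at hz ⊢
    obtain ⟨_, D, hD, hD2⟩ := hz
    refine ⟨mem_univ _, ?_⟩
    have hje : ∀ x, ((if src e = x then 1 else 0) + (if dst e = x then 1 else 0) : ZMod 2)
        = (if x = z then 1 else 0) + (if x = z' then 1 else 0) := by
      intro x
      rcases hj with ⟨a, b⟩ | ⟨a, b⟩
      · rw [a, b]; simp only [eq_comm]
      · rw [a, b, add_comm]; simp only [eq_comm]
    by_cases heD : e ∈ D
    · refine ⟨D.erase e, (erase_subset _ _).trans hD, fun x => ?_⟩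
      have h3 := hD2 x
      unfold pd at h3 ⊢
      rw [← add_sum_erase _ _ heD, hje x] at h3
      have h4 : ∀ a b c d : ZMod 2, (b + c) + d = a + b → d = a + c := by decide
      exact h4 _ _ _ _ h3
    · refine ⟨insert e D, insert_subset he hD, fun x => ?_⟩
      have h3 := hD2 x
      unfold pd at h3 ⊢
      rw [sum_insert heD, hje x, h3]
      have h4 : ∀ a b c : ZMod 2, (b + c) + (a + b) = a + c := by decide
      exact h4 _ _ _
  have h2 : ∑ e ∈ A, (if (src e ∈ R ↔ dst e ∈ R) then (0 : ZMod 2) else 1) = 0 := by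
    refine sum_eq_zero fun e he => ?_
    rw [if_pos]
    exact ⟨fun h => hstep e he _ _ h (Or.inl ⟨rfl, rfl⟩),
      fun h => hstep e he _ _ h (Or.inr ⟨rfl, rfl⟩)⟩
  rw [h2] at h1
  exact absurd h1 (by decide)

theorem solve4' : ∀ d1 d2 d3 : K, (∃ a : K, a ≠ 0 ∧ a + d2 ≠ 0 ∧ a + d2 + d3 ≠ 0 ∧ a + d1 ≠ 0) ∨
    (d1 = d3 ∧ d1 ≠ 0 ∧ d2 ≠ 0 ∧ d1 ≠ d2) := by decide

theorem solve4 (d1 d2 d3 d4 : K) (h : d1 + d2 + d3 + d4 = 0) :
    (∃ a b c d : K, a ≠ 0 ∧ b ≠ 0 ∧ c ≠ 0 ∧ d ≠ 0 ∧
      a + d = d1 ∧ a + b = d2 ∧ b + c = d3 ∧ c + d = d4) ∨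
    (d1 = d3 ∧ d2 = d4 ∧ d1 ≠ 0 ∧ d2 ≠ 0 ∧ d1 ≠ d2) := by
  have h4 := K_eq_of_add h
  have c1 : ∀ a b : K, a + (a + b) = b := by decide
  have c2 : ∀ a b c : K, a + b + (a + b + c) = c := by decide
  have c3 : ∀ a b c d : K, a + b + c + (a + d) = d + b + c := by decide
  rcases solve4' d1 d2 d3 with ⟨a, ha, hb, hc, hd⟩ | ⟨h1, h2, h3, h5⟩
  · left
    exact ⟨a, a + d2, a + d2 + d3, a + d1, ha, hb, hc, hd, c1 _ _, c1 _ _, c2 _ _ _,
      (c3 _ _ _ _).trans h4⟩
  · right
    refine ⟨h1, ?_, h2, h3, h5⟩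
    rw [← h4, ← h1]
    have : ∀ a b : K, b = a + b + a := by decide
    exact this _ _

/-- a linear form with kernel `{0, r}` -/
def lf (c d : ZMod 2) (x : K) : ZMod 2 := c * x.1 + d * x.2

theorem lf_add (c d : ZMod 2) (x y : K) : lf c d (x + y) = lf c d x + lf c d y := by
  unfold lf; simp only [Prod.fst_add, Prod.snd_add]; ring

theorem lf_zero (c d : ZMod 2) : lf c d 0 = 0 := by unfold lf; simp

theorem lf_exists : ∀ r : K, r ≠ 0 → ∃ c d : ZMod 2, ∀ x : K,
    (lf c d x = 0 ↔ (x = 0 ∨ x = r)) := by decide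

variable {C : (E → V) → (E → V) → Prop} {src dst : E → V}

theorem MC.sq (hC : Closed C) (h : MC C src dst) {e1 e2 e3 e4 : E} {u1 u2 u3 u4 : V}
    (n12 : u1 ≠ u2) (n23 : u2 ≠ u3) (n34 : u3 ≠ u4) (n41 : u4 ≠ u1) (n13 : u1 ≠ u3)
    (n24 : u2 ≠ u4) (h1 : Joins src dst e1 u1 u2) (h2 : Joins src dst e2 u2 u3)
    (h3 : Joins src dst e3 u3 u4) (h4 : Joins src dst e4 u4 u1) : False := by
  have hG : Grow src dst {u1, u2, u3, u4} :=
    Grow.add {u2, u3, u4} u1 u2 e1 (Grow.add {u3, u4} u2 u3 e2
      (Grow.add {u4} u3 u4 e3 (Grow.one _) (by simpa using n34) (by simp) h3)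
      (by simpa using ⟨n23, n24⟩) (by simp) h2)
      (by simpa using ⟨n12, n13, n41.symm⟩) (by simp) h1
  have hm : src e1 ∈ ({u1, u2, u3, u4} : Finset V) ∧ dst e1 ∈ ({u1, u2, u3, u4} : Finset V) := by
    rcases h1 with ⟨h3, h4⟩ | ⟨h3, h4⟩ <;> rw [h3, h4] <;> simp
  obtain ⟨f, hf, hd⟩ := h.con hC hG (h1.ne_loop n12) hm.1 hm.2
  have m12 : e1 ≠ e2 := by
    rintro rfl
    rcases h1.ends h2 with ⟨a, b⟩ | ⟨a, b⟩
    · exact n12 a
    · exact n13 a
  have m13 : e1 ≠ e3 := by
    rintro rfl
    rcases h1.ends h3 with ⟨a, b⟩ | ⟨a, b⟩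
    · exact n13 a
    · exact n23 b
  have m14 : e1 ≠ e4 := by
    rintro rfl
    rcases h1.ends h4 with ⟨a, b⟩ | ⟨a, b⟩
    · exact n41 a.symm
    · exact n24 b
  have m23 : e2 ≠ e3 := by
    rintro rfl
    rcases h2.ends h3 with ⟨a, b⟩ | ⟨a, b⟩
    · exact n23 a
    · exact n24 a
  have m24 : e2 ≠ e4 := by
    rintro rfl
    rcases h2.ends h4 with ⟨a, b⟩ | ⟨a, b⟩
    · exact n24 a
    · exact n12 a.symm
  have m34 : e3 ≠ e4 := by
    rintro rfl
    rcases h3.ends h4 with ⟨a, b⟩ | ⟨a, b⟩
    · exact n34 a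
    · exact n13 a.symm
  set ε : Fin 4 → E := ![e1, e2, e3, e4] with hεd
  have hε : Function.Injective ε := by
    intro i j hij
    fin_cases i <;> fin_cases j <;> simp_all [eq_comm]
  set l : Fin 4 → V := ![u1, u2, u3, u4] with hld
  have hl : Function.Injective l := by
    intro i j hij
    fin_cases i <;> fin_cases j <;> simp_all [eq_comm]
  have hj : ∀ k, Joins src dst (ε k) (l ((![0, 1, 2, 3] : Fin 4 → Fin 4) k))
      (l ((![1, 2, 3, 0] : Fin 4 → Fin 4) k)) := by
    intro k
    fin_cases k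
    · exact h1
    · exact h2
    · exact h3
    · exact h4
  have hd' : ∀ g : E → K, (∀ x, x ∉ ({u1, u2, u3, u4} : Finset V) → dv src dst g x = 0) →
      ∀ z, (∀ i, z ≠ l i) → dv src dst g z = 0 := by
    intro g hg z hz
    apply hg
    simp only [mem_insert, mem_singleton, not_or]
    exact ⟨hz 0, hz 1, hz 2, hz 3⟩
  -- solvable demands
  have key : ∀ g : E → K, (∀ e, g e ≠ 0) →
      (∀ x, x ∉ ({u1, u2, u3, u4} : Finset V) → dv src dst g x = 0) →
      outd src dst ε g u1 = outd src dst ε g u3 ∧ outd src dst ε g u2 = outd src dst ε g u4 ∧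
      outd src dst ε g u1 ≠ 0 ∧ outd src dst ε g u2 ≠ 0 ∧
      outd src dst ε g u1 ≠ outd src dst ε g u2 := by
    intro g hg hgd
    have hsum := sum_outd _ _ hl hε hj (hd' g hgd)
    rw [Fin.sum_univ_four] at hsum
    rcases solve4 _ _ _ _ hsum with ⟨a, b, c, d, ha, hb, hc, hdd, q1, q2, q3, q4⟩ | hbad
    · exfalso
      apply h.nz
      refine gl _ _ hl hε hj (fun e _ => hg e) (hd' g hgd) (t := ![a, b, c, d]) ?_ ?_
      · intro k; fin_cases k
        · exact ha
        · exact hb
        · exact hc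
        · exact hdd
      · intro i
        fin_cases i
        · change outd src dst ε g (l 0) = _
          rw [← q1]
          simp [dv, jn, Fin.sum_univ_four]
        · change outd src dst ε g (l 1) = _
          rw [← q2]
          simp [dv, jn, Fin.sum_univ_four]
        · change outd src dst ε g (l 2) = _
          rw [← q3]
          simp [dv, jn, Fin.sum_univ_four]
        · change outd src dst ε g (l 3) = _
          rw [← q4]
          simp [dv, jn, Fin.sum_univ_four]
    · exact hbad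
  obtain ⟨k1, k2, k3, k4, k5⟩ := key f hf hd
  set p := outd src dst ε f u1 with hp
  set q := outd src dst ε f u2 with hq
  have hr : p + q ≠ 0 := fun h0 => k5 (K_eq_of_add h0)
  obtain ⟨c, d, hcd⟩ := lf_exists _ hr
  set A : Finset E := univ.filter (fun e => (∀ k, e ≠ ε k) ∧ lf c d (f e) ≠ 0) with hA
  have hlin : ∀ x, pd src dst A x = lf c d (outd src dst ε f x) := by
    intro x
    unfold pd outd
    have hmap : ∀ s : Finset E, lf c d (∑ e ∈ s, jn (src e) (dst e) (f e) x)
        = ∑ e ∈ s, lf c d (jn (src e) (dst e) (f e) x) := by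
      intro s
      induction s using Finset.induction_on with
      | empty => simp [lf_zero]
      | insert a s ha ih => rw [sum_insert ha, sum_insert ha, lf_add, ih]
    rw [hmap]
    have hA2 : A = (univ.filter (fun e => ∀ k, e ≠ ε k)).filter (fun e => lf c d (f e) ≠ 0) := by
      rw [hA, filter_filter]
    rw [hA2, sum_filter]
    refine sum_congr rfl fun e _ => ?_
    unfold jn
    rw [lf_add]
    have h2 : ∀ a : ZMod 2, a ≠ 0 → a = 1 := by decide
    by_cases h1 : lf c d (f e) = 0
    · rw [if_neg (not_not.mpr h1)]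
      split_ifs <;> simp [h1, lf_zero]
    · rw [if_pos h1]
      have h3 := h2 _ h1
      split_ifs <;> simp [h3, lf_zero]
  have hpo : lf c d p = 1 := by
    have h2 : ∀ a : ZMod 2, a ≠ 0 → a = 1 := by decide
    apply h2
    intro h5
    rcases (hcd p).mp h5 with h6 | h6
    · exact k3 h6
    · have : ∀ a b : K, a = a + b → b = 0 := by decide
      exact k4 (this _ _ h6)
  have hqo : lf c d q = 1 := by
    have h2 : ∀ a : ZMod 2, a ≠ 0 → a = 1 := by decide
    apply h2
    intro h5
    rcases (hcd q).mp h5 with h6 | h6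
    · exact k4 h6
    · have : ∀ a b : K, b = a + b → a = 0 := by decide
      exact k3 (this _ _ h6)
  have hcirc : ∀ x, x ∉ ({u1, u2, u3, u4} : Finset V) → ∀ g : E → K,
      dv src dst g x = 0 → outd src dst ε g x = 0 := by
    intro x hx g hg
    rw [dv_split src dst hε] at hg
    simp only [mem_insert, mem_singleton, not_or] at hx
    obtain ⟨x1, x2, x3, x4⟩ := hx
    have h0 : ∑ k, jn (src (ε k)) (dst (ε k)) (g (ε k)) x = 0 := by
      rw [Fin.sum_univ_four]
      have z1 : ∀ (e : E) (a b : V) (t : K), Joins src dst e a b → x ≠ a → x ≠ b →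
          jn (src e) (dst e) t x = 0 := by
        intro e a b t hj ha hb
        rw [hj.jn]
        unfold jn
        rw [if_neg (Ne.symm ha), if_neg (Ne.symm hb), add_zero]
      have y1 : jn (src (ε 0)) (dst (ε 0)) (g (ε 0)) x = 0 := z1 e1 _ _ _ h1 x1 x2
      have y2 : jn (src (ε 1)) (dst (ε 1)) (g (ε 1)) x = 0 := z1 e2 _ _ _ h2 x2 x3
      have y3 : jn (src (ε 2)) (dst (ε 2)) (g (ε 2)) x = 0 := z1 e3 _ _ _ h3 x3 x4
      have y4 : jn (src (ε 3)) (dst (ε 3)) (g (ε 3)) x = 0 := z1 e4 _ _ _ h4 x4 x1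
      rw [y1, y2, y3, y4]; simp
    rw [h0, add_zero] at hg
    exact hg
  have hT : ∀ x, pd src dst A x = if x ∈ ({u1, u2, u3, u4} : Finset V) then 1 else 0 := by
    intro x
    rw [hlin x]
    by_cases hx : x ∈ ({u1, u2, u3, u4} : Finset V)
    · rw [if_pos hx]
      simp only [mem_insert, mem_singleton] at hx
      rcases hx with rfl | rfl | rfl | rfl
      · exact hpo
      · exact hqo
      · rw [← k1]; exact hpo
      · rw [← k2]; exact hqo
    · rw [if_neg hx, hcirc x hx f (hd x hx), lf_zero]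
  obtain ⟨v, hv, hvu, D, hDA, hDp⟩ := switch src dst A {u1, u2, u3, u4} (u := u1) (by simp) hT
  -- the switched values
  set f' : E → K := fun e => f e + (if e ∈ D then p + q else 0) with hf'
  have hDf : ∀ e ∈ D, f e + (p + q) ≠ 0 := by
    intro e he h0
    have h5 := (mem_filter.mp (hDA he)).2.2
    apply h5
    rw [hcd]
    right
    exact K_eq_of_add h0
  have hf0 : ∀ e, f' e ≠ 0 := by
    intro e
    rw [hf']
    by_cases he : e ∈ D
    · simp only [if_pos he]; exact hDf e he
    · simp only [if_neg he, add_zero]; exact hf e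
  have hsw : ∀ x (s : Finset E), ∑ e ∈ s, jn (src e) (dst e) (if e ∈ D then p + q else 0) x
      = if pd src dst (s ∩ D) x = 0 then 0 else p + q := by
    intro x s
    have h2 : ∀ a : ZMod 2, a ≠ 0 → a = 1 := by decide
    have h3 : ∀ s : Finset E, s ⊆ D → ∑ e ∈ s, jn (src e) (dst e) (p + q) x
        = if pd src dst s x = 0 then 0 else p + q := by
      intro s
      induction s using Finset.induction_on with
      | empty => intro _; simp [pd]
      | insert a s ha ih =>
        intro hs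
        have ih' := ih ((subset_insert _ _).trans hs)
        rw [sum_insert ha, ih']
        have h4 : pd src dst (insert a s) x
            = ((if src a = x then 1 else 0) + (if dst a = x then 1 else 0)) + pd src dst s x := by
          unfold pd; rw [sum_insert ha]
        rw [h4]
        unfold jn
        by_cases z : pd src dst s x = 0
        · rw [z]
          by_cases b1 : src a = x <;> by_cases b2 : dst a = x <;>
            simp [b1, b2, K_add_self, z2_add_self]
        · rw [h2 _ z]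
          by_cases b1 : src a = x <;> by_cases b2 : dst a = x <;>
            simp [b1, b2, K_add_self, z2_add_self]
    have h5 : ∑ e ∈ s, jn (src e) (dst e) (if e ∈ D then p + q else 0) x
        = ∑ e ∈ s ∩ D, jn (src e) (dst e) (p + q) x := by
      rw [← filter_mem_eq_inter, sum_filter]
      refine sum_congr rfl fun e _ => ?_
      split_ifs
      · rfl
      · exact jn_zero _ _ _
    rw [h5, h3 _ inter_subset_right]
  have hout : ∀ x, outd src dst ε f' x = outd src dst ε f x
      + (if (if x = u1 then (1 : ZMod 2) else 0) + (if x = v then 1 else 0) = 0 then 0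
        else p + q) := by
    intro x
    unfold outd
    rw [hf']
    simp only [jn_add]
    rw [sum_add_distrib, hsw, ← hDp x]
    congr 3
    have : (univ.filter (fun e => ∀ k, e ≠ ε k)) ∩ D = D := by
      apply inter_eq_right.mpr
      intro e he
      rw [mem_filter]
      exact ⟨mem_univ _, (mem_filter.mp (hDA he)).2.1⟩
    rw [this]
  have hdv : ∀ x, x ∉ ({u1, u2, u3, u4} : Finset V) → dv src dst f' x = 0 := by
    intro x hx
    have hx' := hx
    rw [dv_add, hd x hx, zero_add]
    unfold dv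
    rw [hsw, univ_inter, hDp x]
    simp only [mem_insert, mem_singleton, not_or] at hx
    have hxv : x ≠ v := fun h5 => hx' (h5 ▸ hv)
    rw [if_neg hx.1, if_neg hxv, add_zero, if_pos rfl]
  obtain ⟨j1, j2, j3, j4, j5⟩ := key f' hf0 hdv
  rw [hout, hout] at j1 j2 j5
  rw [← hp, ← hq] at *
  rw [← k1, ← k2] at *
  have c1 : ∀ a b : K, a + (a + b) = b := by decide
  simp only [mem_insert, mem_singleton] at hv
  rcases hv with rfl | rfl | rfl | rfl
  · exact hvu rfl
  · simp [n12, n23.symm, n13.symm] at j1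
    exact hr j1
  · apply j5
    simp [n12.symm, n13, n23, c1]
  · simp [n34, n41.symm, n13.symm] at j1
    exact hr j1

end Pool.Agent.TH499.TF
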